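import Mathlib

set_option autoImplicit false

namespace Pool.Agent.H.MP_3e5c62_pr

open Finset

variable {V : Type} [Fintype V]

lemma abs_sum_le (f : V → ℚ) (C : ℚ) (h : ∀ v, |f v| ≤ C) : |∑ v, f v| ≤ Fintype.card V * C := by
  refine (abs_sum_le_sum_abs _ _).trans ?_
  simpa using sum_le_card_nsmul univ (fun v => |f v|) C fun v _ => h v

lemma anti_sum (f : V → V → ℚ) (h : ∀ u v, f u v = -f v u) : ∑ u, ∑ v, f u v = 0 := by
  have : ∑ u, ∑ v, f u v = -∑ u, ∑ v, f u v := by
    conv_lhs => rw [sum_comm]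
    simp only [← sum_neg_distrib]
    exact sum_congr rfl fun u _ => sum_congr rfl fun v _ => h v u
  linarith

lemma target (a : V → V → ℚ) (ha : ∀ u v, a u v = 0 ∨ a u v = 1)
    (n ε : ℚ) (hn : n = Fintype.card V) (hn0 : 0 < n) (hε0 : 0 ≤ ε) (hε : ε ≤ 1 / 20)
    (nd : V → ℚ) (F1 : ∀ u, |∑ b, a u b - n / 2| ≤ ε * n) (F1' : ∀ u, |nd u - n / 2| ≤ ε * n)
    (F2 : ∀ u v, u ≠ v → |∑ z, a u z * a v z - n / 4| ≤ ε * n) (has : ∀ u v, a u v = a v u) :
    ∃ (c : ℚ) (t : V → V → ℚ), (∀ u b, t u b + t b u = c) ∧ (∀ u, ∑ b, a u b * t u b = nd u) ∧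
      ∀ u b, |t u b - 1| ≤ 145 * ε := by
  have hεn : ε * n ≤ n / 20 := by nlinarith
  have s1 := abs_sum_le _ _ F1
  have s2 := abs_sum_le _ _ F1'
  rw [sum_sub_distrib, sum_const, card_univ, nsmul_eq_mul, ← hn, abs_le] at s1 s2
  have hnn : 0 < n * n := by positivity
  have hεnn : n * (ε * n) ≤ n * (n / 20) := by gcongr
  have p1 : 0 < ∑ u, ∑ b, a u b := by linarith
  obtain ⟨c0, hc0⟩ : ∃ c0, c0 * ∑ u, ∑ b, a u b = ∑ u, nd u := ⟨(∑ u, nd u) / ∑ u, ∑ b, a u b, by
    field_simp⟩
  have c1 : |c0 - 1| ≤ 5 * ε := by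
    have e : (c0 - 1) * ∑ u, ∑ b, a u b = ∑ u, nd u - ∑ u, ∑ b, a u b := by linarith
    have l : 5 * ε * (n * n * (2 / 5)) ≤ 5 * ε * ∑ u, ∑ b, a u b := by
      gcongr
      linarith
    rw [abs_le]
    constructor
    · apply le_of_mul_le_mul_right _ p1
      linarith
    · apply le_of_mul_le_mul_right _ p1
      linarith
  obtain ⟨D, hD⟩ : ∃ D : V → ℚ, ∀ u, D u = nd u - c0 * ∑ b, a u b := ⟨_, fun _ => rfl⟩
  have D0 : ∑ u, D u = 0 := by
    simp only [hD]
    rw [sum_sub_distrib, ← mul_sum, hc0, sub_self]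
  have D1 : ∀ u, |D u| ≤ 7 * ε * n := by
    intro u
    have f1 := abs_le.mp (F1 u)
    have f2 := abs_le.mp (F1' u)
    have f3 : |(c0 - 1) * ∑ b, a u b| ≤ 5 * ε * n := by
      rw [abs_mul]
      apply mul_le_mul c1 _ (abs_nonneg _) (by positivity)
      rw [abs_le]
      constructor <;> linarith
    rw [abs_le] at f3 ⊢
    rw [hD]
    constructor <;> linarith
  obtain ⟨μ, hμ⟩ : ∃ μ : V → V → ℚ, ∀ u v, μ u v = (D u - D v) / (n * ∑ z, a u z * a v z) :=
    ⟨_, fun _ _ => rfl⟩
  have μ1 : ∀ u v, μ u v = -μ v u := by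
    intro u v
    rw [hμ, hμ, ← neg_div, neg_sub]
    simp only [mul_comm (a u _)]
  have μ2 : ∀ u v, (∑ z, a u z * a v z) * μ u v = (D u - D v) / n := by
    intro u v
    by_cases h : u = v
    · simp [hμ, h]
    · have := (abs_le.mp (F2 u v h)).1
      have : 0 < ∑ z, a u z * a v z := by linarith
      rw [hμ]
      field_simp
  have μ3 : ∀ u v, |μ u v| ≤ 70 * ε / n := by
    intro u v
    by_cases h : u = v
    · simp only [hμ, h, sub_self, zero_div, abs_zero]
      positivity
    · have f1 := (abs_le.mp (F2 u v h)).1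
      have f2 : n / 5 ≤ ∑ z, a u z * a v z := by linarith
      have f3 : 0 < ∑ z, a u z * a v z := by linarith
      have f4 : |D u - D v| ≤ 14 * ε * n := (abs_sub _ _).trans (by linarith [D1 u, D1 v])
      rw [hμ, abs_div, abs_of_pos (by positivity : 0 < n * ∑ z, a u z * a v z)]
      calc _ ≤ 14 * ε * n / (n * (n / 5)) := by gcongr
        _ = _ := by field_simp; ring
  obtain ⟨h, hh⟩ : ∃ h : V → V → ℚ, ∀ u b, h u b = ∑ v, a v b * μ u v := ⟨_, fun _ _ => rfl⟩
  have h1 : ∀ u b, |h u b| ≤ 70 * ε := by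
    intro u b
    rw [hh]
    refine (abs_sum_le _ (70 * ε / n) fun v => ?_).trans (le_of_eq ?_)
    · rcases ha v b with e | e <;> rw [e]
      · simp only [zero_mul, abs_zero]; positivity
      · simpa using μ3 u v
    · rw [← hn]; field_simp
  refine ⟨2 * c0, fun u b => c0 + h u b - h b u, fun u b => by ring, fun u => ?_, fun u b => ?_⟩
  · have e1 : ∑ b, a u b * h u b = D u := by
      simp only [hh, mul_sum]
      rw [sum_comm]
      have : ∀ v, ∑ b, a u b * (a v b * μ u v) = (D u - D v) / n := by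
        intro v
        rw [← μ2, sum_mul]
        exact sum_congr rfl fun b _ => by ring
      simp only [this]
      rw [← sum_div, sum_sub_distrib, D0, sum_const, card_univ, nsmul_eq_mul, ← hn]
      field_simp
      ring
    have e2 : ∑ b, a u b * h b u = 0 := by
      simp only [hh, mul_sum]
      apply anti_sum
      intro b v
      rw [μ1 b v, has v u, has b u]
      ring
    simp only [mul_sub, mul_add, sum_sub_distrib, sum_add_distrib, e1, e2, hD, ← sum_mul]
    ring
  · have f1 := abs_le.mp (h1 u b)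
    have f2 := abs_le.mp (h1 b u)
    have f3 := abs_le.mp c1
    rw [abs_le]
    constructor <;> linarith

def J (a r : V → V → ℚ) (u v t w c : V) : ℚ :=
  r u v * r u t * r v t * (a u w * a v w * a t w) * (a u c * a v c * a t c)

lemma correct (a r : V → V → ℚ) (ha : ∀ u v, a u v = 0 ∨ a u v = 1)
    (hr : ∀ u v, r u v = 0 ∨ r u v = 1) (hrs : ∀ u v, r u v = r v u)
    (n η : ℚ) (hn : n = Fintype.card V) (hn0 : 0 < n) (hη : 0 ≤ η)
    (F1 : ∀ u, n / 3 ≤ ∑ b, a u b)
    (F4 : ∀ u w c, a u w = 1 → a u c = 1 → n ^ 2 / 400 ≤ ∑ v, ∑ t, J a r u v t w c)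
    (e : V → V → ℚ) (he : ∀ u b, a u b = 1 → |e u b| ≤ η) (he0 : ∀ u, ∑ b, a u b * e u b = 0) :
    ∃ y : V → V → V → ℚ, (∀ u v w, y u v w = y v u w) ∧ (∀ u v, ∑ w, y u v w = 0) ∧
      (∀ u w, a u w = 1 → ∑ v, y u v w = e u w) ∧ (∀ u v w, |y u v w| ≤ 7200 * η / n) ∧
      ∀ u v w, r u v * a u w * a v w = 0 → y u v w = 0 := by
  obtain ⟨l, hl⟩ : ∃ l : V → V → V → ℚ, ∀ u w c,
      l u w c = (e u w - e u c) / ((∑ b, a u b) * ∑ v, ∑ t, J a r u v t w c) :=
    ⟨_, fun _ _ _ => rfl⟩
  have J1 : ∀ u v t w c, J a r u v t w c = J a r u v t c w := fun u v t w c => by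
    unfold J; ring
  have J2 : ∀ u v t w c, J a r u v t w c = J a r v u t w c := fun u v t w c => by
    unfold J; rw [hrs u v]; ring
  have J3 : ∀ u v t w c, J a r u v t w c = J a r u t v w c := fun u v t w c => by
    unfold J; rw [hrs v t]; ring
  have l1 : ∀ u w c, l u w c = -l u c w := by
    intro u w c
    rw [hl, hl, ← neg_div, neg_sub]
    simp only [J1 u _ _ w c]
  have l2 : ∀ u w c, a u w = 1 → a u c = 1 → |l u w c| ≤ 2400 * η / n ^ 3 := by
    intro u w c h1 h2
    have f1 := F1 u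
    have f2 := F4 u w c h1 h2
    have f3 : 0 < ∑ b, a u b := lt_of_lt_of_le (by positivity) f1
    have f4 : 0 < ∑ v, ∑ t, J a r u v t w c := lt_of_lt_of_le (by positivity) f2
    have f5 : |e u w - e u c| ≤ 2 * η := (abs_sub _ _).trans (by linarith [he u w h1, he u c h2])
    rw [hl, abs_div, abs_of_pos (mul_pos f3 f4)]
    calc _ ≤ 2 * η / (n / 3 * (n ^ 2 / 400)) := by gcongr
      _ = _ := by field_simp; ring
  refine ⟨fun u v w => ∑ t, ∑ c, J a r u v t w c * (l u w c + l v w c - l t w c), ?_, ?_, ?_, ?_,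
    ?_⟩
  · intro u v w
    exact sum_congr rfl fun t _ => sum_congr rfl fun c _ => by rw [J2 u v]; ring
  · intro u v
    rw [sum_comm]
    apply sum_eq_zero
    intro t _
    apply anti_sum
    intro w c
    rw [J1 u v t w c, l1 u w c, l1 v w c, l1 t w c]
    ring
  · intro u w huw
    have e1 : ∀ c, ∑ v, ∑ t, J a r u v t w c * (l u w c + l v w c - l t w c) =
        a u c * (e u w - e u c) / ∑ b, a u b := by
      intro c
      have f1 : ∑ v, ∑ t, J a r u v t w c * (l v w c - l t w c) = 0 := by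
        apply anti_sum
        intro v t
        rw [J3 u v t]
        ring
      have f2 : ∑ v, ∑ t, J a r u v t w c * (l u w c + l v w c - l t w c) =
          (∑ v, ∑ t, J a r u v t w c) * l u w c +
            ∑ v, ∑ t, J a r u v t w c * (l v w c - l t w c) := by
        simp only [sum_mul, ← sum_add_distrib]
        exact sum_congr rfl fun v _ => sum_congr rfl fun t _ => by ring
      rw [f2, f1, add_zero]
      rcases ha u c with h | h
      · simp [J, h]
      · have f4 : 0 < ∑ v, ∑ t, J a r u v t w c := lt_of_lt_of_le (by positivity) (F4 u w c huw h)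
        rw [hl, h]
        field_simp
    have f3 : 0 < ∑ b, a u b := lt_of_lt_of_le (by positivity) (F1 u)
    calc _ = ∑ c, ∑ v, ∑ t, J a r u v t w c * (l u w c + l v w c - l t w c) := by
          rw [sum_comm (γ := V) (f := fun c v => ∑ t, J a r u v t w c * (l u w c + l v w c - l t w c))]
          exact sum_congr rfl fun v _ => sum_comm
      _ = _ := by
          simp only [e1]
          simp only [mul_sub]
          rw [← sum_div, sum_sub_distrib, he0, ← sum_mul]
          field_simp
          ring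
  · intro u v w
    refine (abs_sum_le _ (n * (7200 * η / n ^ 3)) fun t => ?_).trans (le_of_eq ?_)
    · rw [hn]
      apply abs_sum_le
      intro c
      rw [← hn]
      by_cases h : J a r u v t w c = 0
      · simp only [h, zero_mul, abs_zero]; positivity
      · have h' := h
        simp only [J, mul_eq_zero, not_or] at h'
        obtain ⟨⟨⟨⟨b1, b2⟩, b3⟩, ⟨b4, b5⟩, b6⟩, ⟨b7, b8⟩, b9⟩ := h'
        have c4 := (ha _ _).resolve_left b4
        have c5 := (ha _ _).resolve_left b5
        have c6 := (ha _ _).resolve_left b6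
        have c7 := (ha _ _).resolve_left b7
        have c8 := (ha _ _).resolve_left b8
        have c9 := (ha _ _).resolve_left b9
        rw [J, (hr _ _).resolve_left b1, (hr _ _).resolve_left b2, (hr _ _).resolve_left b3,
          c4, c5, c6, c7, c8, c9]
        have d1 := abs_le.mp (l2 u w c c4 c7)
        have d2 := abs_le.mp (l2 v w c c5 c8)
        have d3 := abs_le.mp (l2 t w c c6 c9)
        have : 7200 * η / n ^ 3 = 3 * (2400 * η / n ^ 3) := by ring
        rw [abs_le]
        constructor <;> linarith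
    · rw [← hn]; field_simp
  · intro u v w h
    apply sum_eq_zero
    intro t _
    apply sum_eq_zero
    intro c _
    have : J a r u v t w c = 0 := by
      unfold J
      linear_combination (r u t * r v t * a t w * (a u c * a v c * a t c)) * h
    rw [this, zero_mul]

theorem flow (a r : V → V → ℚ) (ha : ∀ u v, a u v = 0 ∨ a u v = 1) (has : ∀ u v, a u v = a v u)
    (hr : ∀ u v, r u v = 0 ∨ r u v = 1) (hrs : ∀ u v, r u v = r v u) (hr0 : ∀ u, r u u = 0)
    (n ε : ℚ) (hn : n = Fintype.card V) (hn0 : 0 < n) (hε0 : 0 ≤ ε) (hε : ε ≤ 1 / 10 ^ 7)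
    (F1 : ∀ u, |∑ b, a u b - n / 2| ≤ ε * n) (F1' : ∀ u, |∑ v, r u v - n / 2| ≤ ε * n)
    (F2 : ∀ u v, u ≠ v → |∑ z, a u z * a v z - n / 4| ≤ ε * n)
    (F3 : ∀ u b, a u b = 1 → |∑ v, r u v * a v b - n / 4| ≤ ε * n)
    (F4 : ∀ u w c, a u w = 1 → a u c = 1 → n ^ 2 / 400 ≤ ∑ v, ∑ t, J a r u v t w c) :
    ∃ (x : V → V → V → ℚ) (c : ℚ), (∀ u v w, 0 ≤ x u v w) ∧ (∀ u v w, x u v w = x v u w) ∧
      (∀ u v w, r u v * a u w * a v w = 0 → x u v w = 0) ∧ (∀ u v, r u v = 1 → ∑ w, x u v w = 1) ∧
      ∀ u b, a u b = 1 → ∑ v, x u v b + ∑ v, x b v u = c := by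
  have hεn : ε * n ≤ n / 20 := by nlinarith
  obtain ⟨c, t, t1, t2, t3⟩ := target a ha n ε hn hn0 hε0 (by linarith) _ F1 F1' F2 has
  obtain ⟨x0, hx0⟩ : ∃ x0 : V → V → V → ℚ, ∀ u v w,
      x0 u v w = r u v * a u w * a v w / ∑ z, a u z * a v z := ⟨_, fun _ _ _ => rfl⟩
  have cod : ∀ u v, r u v = 1 →
      n / 4 - ε * n ≤ ∑ z, a u z * a v z ∧ ∑ z, a u z * a v z ≤ n / 4 + ε * n := by
    intro u v h
    have := abs_le.mp (F2 u v (by rintro rfl; rw [hr0] at h; norm_num at h))
    constructor <;> linarith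
  have x1 : ∀ u v, ∑ w, x0 u v w = r u v := by
    intro u v
    rcases hr u v with h | h
    · simp [hx0, h]
    · have := (cod u v h).1
      have : 0 < ∑ z, a u z * a v z := by linarith
      simp only [hx0, h, one_mul]
      rw [← sum_div]
      field_simp
  have x2 : ∀ u b, a u b = 1 → |∑ v, x0 u v b - 1| ≤ 10 * ε := by
    intro u b h
    have f := abs_le.mp (F3 u b h)
    have p1 : 0 < n / 4 - ε * n := by linarith
    have p2 : 0 < n / 4 + ε * n := by linarith
    have g1 : ∑ v, x0 u v b ≤ (∑ v, r u v * a v b) / (n / 4 - ε * n) := by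
      rw [sum_div]
      apply sum_le_sum
      intro v _
      rw [hx0, h, mul_one]
      rcases hr u v with h' | h'
      · simp [h']
      · rcases ha v b with h'' | h''
        · simp [h'']
        · rw [h', h'']
          gcongr
          exact (cod u v h').1
    have g2 : (∑ v, r u v * a v b) / (n / 4 + ε * n) ≤ ∑ v, x0 u v b := by
      rw [sum_div]
      apply sum_le_sum
      intro v _
      rw [hx0, h, mul_one]
      rcases hr u v with h' | h'
      · simp [h']
      · rcases ha v b with h'' | h''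
        · simp [h'']
        · rw [h', h'']
          have := (cod u v h').1
          gcongr
          · linarith
          · exact (cod u v h').2
    have q : ε * (ε * n) ≤ ε * (n / 20) := by gcongr
    have q0 : 0 ≤ ε * (ε * n) := by positivity
    have g3 : (∑ v, r u v * a v b) / (n / 4 - ε * n) ≤ 1 + 10 * ε := by
      rw [div_le_iff₀ p1]
      linarith
    have g4 : 1 - 10 * ε ≤ (∑ v, r u v * a v b) / (n / 4 + ε * n) := by
      rw [le_div_iff₀ p2]
      have : 0 ≤ ε * n := by positivity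
      linarith
    rw [abs_le]
    constructor <;> linarith
  obtain ⟨y, y1, y2, y3, y4, y5⟩ := correct a r ha hr hrs n (155 * ε) hn hn0 (by positivity)
    (fun u => by linarith [(abs_le.mp (F1 u)).1]) F4 (fun u b => t u b - ∑ v, x0 u v b)
    (fun u b h => by
      have f1 := abs_le.mp (x2 u b h)
      have f2 := abs_le.mp (t3 u b)
      rw [abs_le]
      constructor <;> linarith)
    (fun u => by
      simp only [mul_sub, sum_sub_distrib, t2, mul_sum]
      rw [sum_comm, sub_eq_zero]
      apply sum_congr rfl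
      intro v _
      rw [← x1]
      apply sum_congr rfl
      intro b _
      rcases ha u b with h | h <;> simp [hx0, h])
  refine ⟨fun u v w => x0 u v w + y u v w, c, ?_, ?_, ?_, ?_, ?_⟩
  · intro u v w
    by_cases h : r u v * a u w * a v w = 0
    · simp [hx0, h, y5 u v w h]
    · simp only [mul_eq_zero, not_or] at h
      have h1 := (hr _ _).resolve_left h.1.1
      have f := cod u v h1
      have f1 : 1 / n ≤ x0 u v w := by
        rw [hx0, h1, (ha _ _).resolve_left h.1.2, (ha _ _).resolve_left h.2, mul_one, mul_one]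
        gcongr
        · linarith
        · linarith
      have f2 := (abs_le.mp (y4 u v w)).1
      have f3 : 7200 * (155 * ε) / n ≤ 1 / n := by
        gcongr
        linarith
      linarith
  · intro u v w
    simp only [hx0, y1 u v w, hrs u v, mul_comm (a u _)]
    ring
  · intro u v w h
    simp [hx0, h, y5 u v w h]
  · intro u v h
    rw [sum_add_distrib, x1, y2, h, add_zero]
  · intro u b h
    rw [sum_add_distrib, sum_add_distrib, y3 u b h, y3 b u (by rw [has, h]), ← t1 u b]
    ring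

end Pool.Agent.H.MP_3e5c62_pr
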