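import Pool.Agent.H.MP_3e5c62_pr.Prob
import Pool.Agent.H.MP_3e5c62_pr.Flow

set_option autoImplicit false

namespace Pool.Agent.H.MP_3e5c62_pr

open Classical Finset

variable {V : Type} [Fintype V] [DecidableEq V]

noncomputable def K (p : Prop) : ℚ := if p then 1 else 0

lemma K01 (p : Prop) : K p = 0 ∨ K p = 1 := by unfold K; split_ifs <;> simp

lemma K_mul (p q : Prop) : K p * K q = K (p ∧ q) := by
  by_cases hp : p <;> by_cases hq : q <;> simp [K, hp, hq]

lemma K_eq_one {p : Prop} : K p = 1 ↔ p := by simp [K]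

lemma K_eq_zero {p : Prop} : K p = 0 ↔ ¬ p := by simp [K]

lemma cnt {G : SimpleGraph V} {ε : ℚ} (hG : Good ((ε : ℝ) / 2) G) (hn : 8 ≤ ε * Fintype.card V)
    (S T : Finset V) (hS : #S ≤ 2) (hT : #T ≤ 2) (hd : Disjoint S T) (p : V → Prop)
    (hp : ∀ v, p v ↔ (∀ u ∈ S, G.Adj u v) ∧ ∀ u ∈ T, Gᶜ.Adj u v) :
    |∑ v, K (p v) - Fintype.card V * (1 / 2) ^ (#S + #T)| ≤ ε * Fintype.card V := by
  have h1 := hG (S ∪ T) S ((card_union_le _ _).trans (by omega)) (by omega)
  have h2 : ∑ v, K (p v) = ex G (S ∪ T) S := by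
    simp only [K, sum_boole, ex]
    congr 2
    ext v
    simp only [mem_filter, mem_univ, true_and, hp, mem_compl, mem_union, Pat,
      SimpleGraph.compl_adj]
    have := disjoint_left.mp hd
    constructor
    · rintro ⟨a, b⟩
      refine ⟨?_, ?_⟩
      · rintro (h | h)
        · exact G.irrefl (a v h)
        · exact (b v h).1 rfl
      · rintro u (h | h)
        · simp [h, a u h]
        · simp [(b u h).2, disjoint_right.mp hd h]
    · rintro ⟨a, b⟩
      refine ⟨fun u h => (b u (Or.inl h)).mpr h, fun u h => ⟨?_, ?_⟩⟩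
      · rintro rfl
        exact a (Or.inr h)
      · rw [b u (Or.inr h)]
        exact disjoint_right.mp hd h
  rw [h2]
  rw [card_union_of_disjoint hd] at h1
  have h3 : (#(S ∪ T)ᶜ : ℝ) = Fintype.card V - (#S + #T : ℕ) := by
    rw [card_compl, Nat.cast_sub (card_le_univ _), card_union_of_disjoint hd]
  have h4 : ((#S + #T : ℕ) : ℝ) ≤ 4 := by exact_mod_cast (by omega : #S + #T ≤ 4)
  have h5 : ((1 : ℝ) / 2) ^ (#S + #T) ≤ 1 := pow_le_one₀ (by norm_num) (by norm_num)
  have h6 : ((#S + #T : ℕ) : ℝ) * ((1 : ℝ) / 2) ^ (#S + #T) ≤ 4 * 1 := by gcongr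
  have h7 : 0 ≤ ((#S + #T : ℕ) : ℝ) * ((1 : ℝ) / 2) ^ (#S + #T) := by positivity
  have h8 : (8 : ℝ) ≤ ε * Fintype.card V := by exact_mod_cast hn
  have : |(ex G (S ∪ T) S : ℝ) - Fintype.card V * (1 / 2) ^ (#S + #T)| ≤ ε * Fintype.card V := by
    rw [h3, abs_le] at h1
    rw [abs_le]
    constructor <;> linarith [h1.1, h1.2]
  apply (Rat.cast_le (K := ℝ)).mp
  push_cast
  exact this

lemma cnt_lb {G : SimpleGraph V} {ε : ℚ} (hG : Good ((ε : ℝ) / 2) G) (hn : 8 ≤ ε * Fintype.card V)
    (hε : ε ≤ 1 / 100)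
    (S T : Finset V) (hS : #S ≤ 2) (hT : #T ≤ 2) (hd : Disjoint S T) (p : V → Prop)
    (hp : ∀ v, p v ↔ (∀ u ∈ S, G.Adj u v) ∧ ∀ u ∈ T, Gᶜ.Adj u v) :
    (Fintype.card V : ℚ) / 20 ≤ ∑ v, K (p v) := by
  have h1 := (abs_le.mp (cnt hG hn S T hS hT hd p hp)).1
  have h2 : ((1 : ℚ) / 2) ^ 4 ≤ (1 / 2) ^ (#S + #T) :=
    pow_le_pow_of_le_one (by norm_num) (by norm_num) (by omega)
  have h0 : (0 : ℚ) ≤ Fintype.card V := by positivity
  have h3 := mul_le_mul_of_nonneg_left h2 h0
  have h4 := mul_le_mul_of_nonneg_right hε h0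
  linarith

lemma frac {G : SimpleGraph V} (hG : Good (((1 / 10 ^ 7 : ℚ) : ℝ) / 2) G)
    (hN : 10 ^ 8 ≤ Fintype.card V) :
    ∃ (x : V → V → V → ℚ) (c : ℚ), (∀ u v w, 0 ≤ x u v w) ∧ (∀ u v w, x u v w = x v u w) ∧
      (∀ u v w, x u v w ≠ 0 → Gᶜ.Adj u v ∧ G.Adj u w ∧ G.Adj v w) ∧
      (∀ u v, Gᶜ.Adj u v → ∑ w, x u v w = 1) ∧
      ∀ u b, G.Adj u b → ∑ v, x u v b + ∑ v, x b v u = c := by
  have hN' : (10 : ℚ) ^ 8 ≤ Fintype.card V := by exact_mod_cast hN
  have hn : 8 ≤ (1 / 10 ^ 7 : ℚ) * Fintype.card V := by linarith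
  obtain ⟨x, c, h1, h2, h3, h4, h5⟩ := flow (fun u v => K (G.Adj u v)) (fun u v => K (Gᶜ.Adj u v))
    (fun _ _ => K01 _) (fun u v => by rw [G.adj_comm]) (fun _ _ => K01 _)
    (fun u v => by rw [Gᶜ.adj_comm]) (fun u => by simp [K]) (Fintype.card V) (1 / 10 ^ 7) rfl
    (by linarith) (by norm_num) le_rfl
    (fun u => by
      have := cnt hG hn {u} ∅ (by simp) (by simp) (by simp) (fun b => G.Adj u b) (by simp)
      simpa [div_eq_mul_inv] using this)
    (fun u => by
      have := cnt hG hn ∅ {u} (by simp) (by simp) (by simp) (fun b => Gᶜ.Adj u b) (by simp)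
      simpa [div_eq_mul_inv] using this)
    (fun u v huv => by
      have := cnt hG hn {u, v} ∅ card_le_two (by simp) (by simp)
        (fun b => G.Adj u b ∧ G.Adj v b) (by simp)
      rw [card_pair huv] at this
      simp only [K_mul]
      convert this using 3
      simp
      ring)
    (fun u b h => by
      rw [K_eq_one] at h
      have := cnt hG hn {b} {u} (by simp) (by simp) (by simpa using h.ne')
        (fun v => Gᶜ.Adj u v ∧ G.Adj v b) (by simp [and_comm, G.adj_comm])
      simp only [K_mul]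
      convert this using 3
      simp
      ring)
    (fun u w c hw hc => by
      rw [K_eq_one] at hw hc
      have a1 := cnt_lb hG hn (by norm_num) {w, c} {u} card_le_two (by simp)
        (by simpa using ⟨hw.ne, hc.ne⟩) (fun v => Gᶜ.Adj u v ∧ G.Adj v w ∧ G.Adj v c)
        (by simp only [mem_insert, mem_singleton, forall_eq_or_imp, forall_eq, G.adj_comm w,
              G.adj_comm c]; tauto)
      calc (Fintype.card V : ℚ) ^ 2 / 400 = Fintype.card V / 20 * (Fintype.card V / 20) := by ring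
        _ ≤ (∑ v, K (Gᶜ.Adj u v ∧ G.Adj v w ∧ G.Adj v c)) * (Fintype.card V / 20) := by gcongr
        _ ≤ _ := by
          rw [sum_mul]
          apply sum_le_sum
          intro v _
          by_cases hv : Gᶜ.Adj u v ∧ G.Adj v w ∧ G.Adj v c
          · rw [K_eq_one.mpr hv, one_mul]
            simp only [J, K_mul]
            apply cnt_lb hG hn (by norm_num) {w, c} {u, v} card_le_two card_le_two
            · simpa using ⟨⟨hw.ne, hc.ne⟩, hv.2.1.ne, hv.2.2.ne⟩
            · simp only [mem_insert, mem_singleton, forall_eq_or_imp, forall_eq, G.adj_comm w,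
                G.adj_comm c]
              tauto
          · rw [K_eq_zero.mpr hv, zero_mul]
            simp only [J, K_mul]
            apply sum_nonneg
            intro t _
            rcases K01 _ with h | h <;> rw [h] <;> norm_num)
  refine ⟨x, c, h1, h2, fun u v w h => ?_, fun u v h => h4 u v (K_eq_one.mpr h),
    fun u b h => h5 u b (K_eq_one.mpr h)⟩
  by_contra hc
  apply h
  apply h3
  simp only [K_mul, K_eq_zero]
  tauto

omit [DecidableEq V] in
lemma denom {ι : Type} [Fintype ι] (q : ι → ℚ) (hq : ∀ i, 0 ≤ q i) :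
    ∃ k : ℕ, 1 ≤ k ∧ ∃ f : ι → ℕ, ∀ i, (f i : ℚ) = k * q i := by
  refine ⟨∏ i, (q i).den, Nat.succ_le_of_lt (prod_pos fun i _ => (q i).den_pos), ?_⟩
  have : ∀ i, ∃ m : ℕ, (m : ℚ) = (∏ i, (q i).den : ℕ) * q i := by
    intro i
    obtain ⟨d, hd⟩ := dvd_prod_of_mem (fun i => (q i).den) (mem_univ i)
    refine ⟨d * (q i).num.toNat, ?_⟩
    have h1 : (((q i).num.toNat : ℕ) : ℚ) = (q i).num := by
      exact_mod_cast Int.toNat_of_nonneg (Rat.num_nonneg.mpr (hq i))
    rw [hd]
    push_cast
    rw [h1, ← Rat.mul_den_eq_num]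
    ring
  choose f hf using this
  exact ⟨f, hf⟩

omit [DecidableEq V] in
lemma spread (f : V → ℕ) (k : ℕ) (h : ∑ w, f w = k) :
    ∃ g : Fin k → V, (∀ t, f (g t) ≠ 0) ∧ ∀ φ : V → ℚ, ∑ t, φ (g t) = ∑ w, f w * φ w := by
  let e : (Σ w, Fin (f w)) ≃ Fin k := Fintype.equivFinOfCardEq (by simp [h])
  refine ⟨fun t => (e.symm t).1, fun t => (e.symm t).2.pos.ne', fun φ => ?_⟩
  rw [e.symm.sum_comp (fun s => φ s.1), Fintype.sum_sigma]
  simp

lemma half {n : ℕ} (F : Fin n → Fin n → ℚ) (hs : ∀ u v, F u v = F v u) (h0 : ∀ u, F u u = 0) :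
    2 * ∑ u, ∑ v ∈ univ.filter (fun v => u < v), F u v = ∑ u, ∑ v, F u v := by
  have e : ∀ u v, F u v = (if u < v then F u v else 0) + if v < u then F v u else 0 := by
    intro u v
    rcases lt_trichotomy u v with h | h | h
    · simp [h, h.not_gt]
    · simp [h, h0]
    · simp [h, h.not_gt, hs u v]
  conv_rhs => simp only [fun u => sum_congr rfl fun v (_ : v ∈ univ) => e u v, sum_add_distrib]
  rw [sum_comm (f := fun u v => if v < u then F v u else 0)]
  simp only [sum_filter]
  ring

theorem det {n : ℕ} (hN : 10 ^ 8 ≤ n) (G : SimpleGraph (Fin n))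
    (hG : Good (((1 / 10 ^ 7 : ℚ) : ℝ) / 2) G) :
    ∃ m k : ℕ, 1 ≤ m ∧ 1 ≤ k ∧
        ∃ P : ∀ u v : Fin n, Fin k → G.Walk u v,
          (∀ u v : Fin n, u < v → ∀ t : Fin k,
              (P u v t).IsPath ∧ (P u v t).length = G.dist u v) ∧
          (∀ e ∈ G.edgeSet,
              ∑ u : Fin n, ∑ v ∈ Finset.univ.filter (fun v => u < v), ∑ t : Fin k,
                (P u v t).edges.count e = m) := by
  obtain ⟨x, c, h1, h2, h3, h4, h5⟩ := frac hG (by simpa using hN)
  obtain ⟨k, hk, f, hf⟩ := denom (ι := Option (Fin n × Fin n × Fin n))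
    (fun o => o.elim |c| fun p => x p.1 p.2.1 p.2.2) (by
      rintro (_ | p)
      · exact abs_nonneg c
      · exact h1 _ _ _)
  have hw : ∀ u v : Fin n, ∃ Pw : Fin k → G.Walk u v,
      (∀ t, (Pw t).IsPath ∧ (Pw t).length = G.dist u v) ∧ ∀ e : Sym2 (Fin n),
        ((∑ t, (Pw t).edges.count e : ℕ) : ℚ) = k * (K (G.Adj u v ∧ e = s(u, v)) +
          ∑ w, x u v w * (K (e = s(u, w)) + K (e = s(v, w)))) := by
    intro u v
    by_cases huv : u = v
    · subst huv
      refine ⟨fun _ => .nil, fun _ => by simp, fun e => ?_⟩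
      have : ∀ w, x u u w = 0 := fun w => by
        by_contra h
        exact (h3 u u w h).1.ne rfl
      simp [this, K]
    · by_cases ha : G.Adj u v
      · refine ⟨fun _ => ha.toWalk, fun _ => ⟨ha.isPath_toWalk, ?_⟩, fun e => ?_⟩
        · simp [SimpleGraph.dist_eq_one_iff_adj.mpr ha]
        · have : ∀ w, x u v w = 0 := fun w => by
            by_contra h
            exact (h3 u v w h).1.2 ha
          by_cases he : e = s(u, v)
          · simp [this, K, ha, he]
          · simp [this, K, he, Ne.symm he]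
      · have hc : Gᶜ.Adj u v := ⟨huv, ha⟩
        obtain ⟨g, g1, g2⟩ := spread (fun w => f (some (u, v, w))) k (by
          have : ((∑ w, f (some (u, v, w)) : ℕ) : ℚ) = k := by
            push_cast
            simp only [hf, Option.elim]
            rw [← mul_sum, h4 u v hc, mul_one]
          exact_mod_cast this)
        have g3 : ∀ t, G.Adj u (g t) ∧ G.Adj v (g t) := by
          intro t
          refine (h3 u v (g t) fun h => g1 t ?_).2
          have := hf (some (u, v, g t))
          simp only [Option.elim, h, mul_zero] at this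
          exact_mod_cast this
        refine ⟨fun t => .cons (g3 t).1 (.cons (g3 t).2.symm .nil), fun t => ⟨?_, ?_⟩, fun e => ?_⟩
        · simp [(g3 t).1.ne, (g3 t).2.ne', huv]
        · have := (G.edist_eq_two_iff (u := u) (v := v)).mpr ⟨huv, ha, g t, g3 t⟩
          simp [SimpleGraph.dist, this]
        · have e1 := g2 (fun w => K (e = s(u, w)) + K (e = s(v, w)))
          simp only [hf, Option.elim] at e1
          rw [K_eq_zero.mpr (fun h => ha h.1), zero_add, mul_sum]
          simp only [← mul_assoc]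
          rw [← e1]
          push_cast
          apply sum_congr rfl
          intro t _
          rw [Sym2.eq_swap (a := v)]
          simp only [SimpleGraph.Walk.edges_cons, SimpleGraph.Walk.edges_nil, List.count_cons,
            List.count_nil, beq_iff_eq, K, eq_comm (a := e)]
          push_cast
          split_ifs <;> norm_num
  choose P hP1 hP2 using hw
  refine ⟨k + f none, k, by omega, hk, P, fun u v _ t => hP1 u v t, ?_⟩
  intro e he
  induction e using Sym2.ind with
  | _ a b =>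
    have hab : G.Adj a b := he
    have hc : |c| = c := by
      rw [← h5 a b hab]
      exact abs_of_nonneg (add_nonneg (sum_nonneg fun _ _ => h1 _ _ _)
        (sum_nonneg fun _ _ => h1 _ _ _))
    have key : ∀ u w, K (s(a, b) = s(u, w)) = K (u = a ∧ w = b) + K (u = b ∧ w = a) := by
      intro u w
      have := hab.ne
      simp only [K, Sym2.eq_iff]
      split_ifs <;> first | (exfalso; grind) | norm_num
    have sumK : ∀ (a b : Fin n) (φ : Fin n → Fin n → ℚ),
        ∑ u, ∑ w, φ u w * K (u = a ∧ w = b) = φ a b := by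
      intro a b φ
      rw [sum_eq_single a, sum_eq_single b] <;> simp +contextual [K]
    have s1 : ∑ u, ∑ v, K (G.Adj u v ∧ s(a, b) = s(u, v)) = 2 := by
      simp only [← K_mul (G.Adj _ _), key, mul_add, sum_add_distrib, sumK, K_eq_one.mpr hab,
        K_eq_one.mpr hab.symm]
      norm_num
    have s2 : ∑ u, ∑ v, ∑ w, x u v w * K (s(a, b) = s(u, w)) = c := by
      rw [← h5 a b hab, ← sum_add_distrib, sum_comm]
      apply sum_congr rfl
      intro v _
      simp only [key, mul_add, sum_add_distrib]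
      rw [sumK a b (fun u w => x u v w), sumK b a (fun u w => x u v w)]
    have s3 : ∑ u, ∑ v, ∑ w, x u v w * K (s(a, b) = s(v, w)) = c := by
      rw [sum_comm, ← s2]
      exact sum_congr rfl fun u _ => sum_congr rfl fun v _ => sum_congr rfl fun w _ => by
        rw [h2]
    have s4 := half (fun u v => K (G.Adj u v ∧ s(a, b) = s(u, v)) +
      ∑ w, x u v w * (K (s(a, b) = s(u, w)) + K (s(a, b) = s(v, w))))
      (fun u v => by
        simp only [G.adj_comm u v, Sym2.eq_swap (a := u) (b := v), h2 u v,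
          add_comm (K (s(a, b) = s(u, _)))])
      (fun u => by
        have : ∀ w, x u u w = 0 := fun w => by
          by_contra h
          exact (h3 u u w h).1.ne rfl
        simp [this, K])
    simp only [mul_add (x _ _ _), sum_add_distrib (s := univ), s1, s2, s3] at s4
    apply Nat.cast_injective (R := ℚ)
    rw [Nat.cast_sum]
    simp only [Nat.cast_sum (s := filter _ _), hP2, ← mul_sum, Nat.cast_add, hf, Option.elim, hc,
      mul_add (x _ _ _), sum_add_distrib (s := univ)]
    linear_combination (k / 2 : ℚ) * s4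

end Pool.Agent.H.MP_3e5c62_pr
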