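import Mathlib

set_option autoImplicit false

namespace Pool.Agent.H.MP_3e5c62_pr

open Classical Finset Filter Topology

variable {V : Type} [Fintype V] [DecidableEq V]

def mix (B : Set (Sym2 V)) (G G' : SimpleGraph V) : SimpleGraph V :=
  (G ⊓ SimpleGraph.fromEdgeSet B) ⊔ (G' \ SimpleGraph.fromEdgeSet B)

omit [Fintype V] [DecidableEq V] in
lemma mix_in {B : Set (Sym2 V)} {G G' : SimpleGraph V} {u v : V} (h : s(u, v) ∈ B) :
    (mix B G G').Adj u v ↔ G.Adj u v := by
  have := G.ne_of_adj (a := u) (b := v)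
  have := G'.ne_of_adj (a := u) (b := v)
  simp only [mix, SimpleGraph.sup_adj, SimpleGraph.inf_adj, SimpleGraph.sdiff_adj,
    SimpleGraph.fromEdgeSet_adj]
  tauto

omit [Fintype V] [DecidableEq V] in
lemma mix_out {B : Set (Sym2 V)} {G G' : SimpleGraph V} {u v : V} (h : s(u, v) ∉ B) :
    (mix B G G').Adj u v ↔ G'.Adj u v := by
  simp only [mix, SimpleGraph.sup_adj, SimpleGraph.inf_adj, SimpleGraph.sdiff_adj,
    SimpleGraph.fromEdgeSet_adj]
  tauto

def Dep (f : SimpleGraph V → ℝ) (B : Set (Sym2 V)) : Prop :=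
  ∀ G G' : SimpleGraph V, (∀ u v, s(u, v) ∈ B → (G.Adj u v ↔ G'.Adj u v)) → f G = f G'

noncomputable def av (f : SimpleGraph V → ℝ) : ℝ :=
  (∑ G, f G) / Fintype.card (SimpleGraph V)

lemma card_pos' : (0 : ℝ) < Fintype.card (SimpleGraph V) := by
  exact_mod_cast Fintype.card_pos

lemma av_mul {f g : SimpleGraph V → ℝ} {B : Set (Sym2 V)} (hf : Dep f B) (hg : Dep g Bᶜ) :
    av (fun G => f G * g G) = av f * av g := by
  have hinv : Function.Involutive
      (fun p : SimpleGraph V × SimpleGraph V => (mix B p.1 p.2, mix B p.2 p.1)) := by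
    rintro ⟨G, G'⟩
    refine Prod.ext ?_ ?_ <;> ext u v <;> by_cases h : s(u, v) ∈ B <;> simp [mix_in, mix_out, h]
  have h1 := Equiv.sum_comp hinv.toPerm (fun p => f p.1 * g p.1)
  have h2 : ∀ p : SimpleGraph V × SimpleGraph V,
      f (mix B p.1 p.2) * g (mix B p.1 p.2) = f p.1 * g p.2 := by
    intro p
    rw [hf _ p.1 fun u v h => mix_in h, hg _ p.2 fun u v h => mix_out h]
  simp only [Function.Involutive.coe_toPerm, h2, Fintype.sum_prod_type, sum_const, card_univ,
    nsmul_eq_mul] at h1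
  rw [← sum_mul_sum, ← mul_sum] at h1
  have := card_pos' (V := V)
  unfold av
  field_simp
  linarith

lemma av_one : av (fun _ : SimpleGraph V => (1 : ℝ)) = 1 := by
  have := card_pos' (V := V)
  simp [av]

lemma av_prod {ι : Type} (I : Finset ι) (f : ι → SimpleGraph V → ℝ) (B : ι → Set (Sym2 V))
    (hf : ∀ i ∈ I, Dep (f i) (B i)) (hB : ∀ i ∈ I, ∀ j ∈ I, i ≠ j → Disjoint (B i) (B j)) :
    av (fun G => ∏ i ∈ I, f i G) = ∏ i ∈ I, av (f i) := by
  induction I using Finset.induction_on with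
  | empty => simpa using av_one
  | insert a s ha ih =>
    simp only [prod_insert ha]
    rw [av_mul (hf a (mem_insert_self _ _)), ih (fun i hi => hf i (mem_insert_of_mem hi))
      (fun i hi j hj => hB i (mem_insert_of_mem hi) j (mem_insert_of_mem hj))]
    intro G G' h
    apply prod_congr rfl
    intro i hi
    apply hf i (mem_insert_of_mem hi)
    intro u v huv
    apply h
    exact Set.disjoint_left.mp (hB i (mem_insert_of_mem hi) a (mem_insert_self _ _)
      (fun e => ha (e ▸ hi))) huv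

noncomputable def I (p : Prop) : ℝ := if p then 1 else 0

lemma av_edge {u v : V} (h : u ≠ v) (p : Prop) :
    av (fun G : SimpleGraph V => I (G.Adj u v ↔ p)) = 1 / 2 := by
  have hinv : Function.Involutive (fun G : SimpleGraph V => Gᶜ) := compl_compl
  have h1 := Equiv.sum_comp hinv.toPerm (fun G => I (G.Adj u v ↔ p))
  have h2 : ∑ G : SimpleGraph V, (I (Gᶜ.Adj u v ↔ p) + I (G.Adj u v ↔ p)) =
      ∑ G : SimpleGraph V, 1 := by
    apply sum_congr rfl
    intro G _
    by_cases a : G.Adj u v <;> by_cases b : p <;> simp [I, a, b, h]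
  simp only [Function.Involutive.coe_toPerm] at h1
  rw [sum_add_distrib, h1] at h2
  simp only [sum_const, card_univ, nsmul_eq_mul, mul_one] at h2
  have := card_pos' (V := V)
  unfold av
  field_simp
  linarith

def Pat (G : SimpleGraph V) (U S : Finset V) (v : V) : Prop := ∀ u ∈ U, (G.Adj u v ↔ u ∈ S)

noncomputable def ex (G : SimpleGraph V) (U S : Finset V) : ℕ := #{v ∈ Uᶜ | Pat G U S v}

lemma av_pat (U S : Finset V) {v : V} (hv : v ∉ U) :
    av (fun G : SimpleGraph V => I (Pat G U S v)) = (1 / 2) ^ #U := by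
  have h1 := av_prod U (fun u G => I (G.Adj u v ↔ u ∈ S))
    (fun u => {s(u, v)}) (fun u _ G G' h => by simp only [h u v rfl]) (fun i hi j hj hij => by
      rw [Set.disjoint_singleton]
      intro h
      rcases Sym2.eq_iff.mp h with h | h
      · exact hij h.1
      · exact hv (h.1 ▸ hi))
  rw [prod_congr rfl fun u hu => av_edge (fun e : u = v => hv (e ▸ hu)) (u ∈ S), prod_const] at h1
  rw [← h1]
  congr 1
  ext G
  by_cases h : Pat G U S v
  · rw [I, if_pos h, prod_eq_one]
    intro u hu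
    rw [I, if_pos (h u hu)]
  · rw [I, if_neg h]
    simp only [Pat, not_forall] at h
    obtain ⟨u, hu, h⟩ := h
    exact (prod_eq_zero hu (by rw [I, if_neg h])).symm

lemma av_exp (U S : Finset V) {l : ℝ} (hl : |l| ≤ 1) :
    av (fun G : SimpleGraph V => Real.exp (l * (ex G U S - #Uᶜ * (1 / 2) ^ #U))) ≤
      Real.exp (l ^ 2 * Fintype.card V) := by
  obtain ⟨p, hp⟩ : ∃ p : ℝ, p = (1 / 2) ^ #U := ⟨_, rfl⟩
  have hp0 : 0 ≤ p := by rw [hp]; positivity
  have hp1 : p ≤ 1 := by rw [hp]; exact pow_le_one₀ (by norm_num) (by norm_num)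
  have h1 := av_prod Uᶜ (fun v G => Real.exp (l * (I (Pat G U S v) - p)))
    (fun v => {e | ∃ u ∈ U, e = s(u, v)}) (fun v _ G G' h => by
      have : Pat G U S v ↔ Pat G' U S v :=
        forall₂_congr fun u hu => by rw [h u v ⟨u, hu, rfl⟩]
      simp only [this]) (fun i hi j hj hij => by
      rw [Set.disjoint_left]
      rintro e ⟨u, hu, rfl⟩ ⟨w, hw, h⟩
      rcases Sym2.eq_iff.mp h with h | h
      · exact hij h.2
      · exact (mem_compl.mp hi) (h.2 ▸ hw))
  have h2 : ∀ v ∈ Uᶜ, av (fun G : SimpleGraph V =>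
      Real.exp (l * (I (Pat G U S v) - p))) ≤ Real.exp (l ^ 2) := by
    intro v hv
    have e1 := av_pat U S (mem_compl.mp hv)
    rw [← hp] at e1
    have e2 : ∀ G : SimpleGraph V, Real.exp (l * (I (Pat G U S v) - p)) =
        Real.exp (-(l * p)) * (1 + (Real.exp l - 1) * I (Pat G U S v)) := by
      intro G
      unfold I
      split_ifs
      · rw [mul_one, add_sub_cancel, ← Real.exp_add]; congr 1; ring
      · simp
    have e3 : av (fun G : SimpleGraph V =>
        Real.exp (l * (I (Pat G U S v) - p))) =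
        Real.exp (-(l * p)) * (1 + (Real.exp l - 1) * p) := by
      have := card_pos' (V := V)
      simp only [e2]
      conv_rhs => enter [2, 2, 2]; rw [← e1]
      unfold av
      rw [← mul_sum, sum_add_distrib, ← mul_sum]
      simp only [sum_const, card_univ, nsmul_eq_mul, mul_one]
      field_simp
    rw [e3]
    have e4 : 1 + (Real.exp l - 1) * p ≤ Real.exp ((Real.exp l - 1) * p) := by
      rw [add_comm]; exact Real.add_one_le_exp _
    have e5 := (abs_le.mp (Real.abs_exp_sub_one_sub_id_le hl)).2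
    calc _ ≤ Real.exp (-(l * p)) * Real.exp ((Real.exp l - 1) * p) := by gcongr
      _ ≤ _ := by
        rw [← Real.exp_add, Real.exp_le_exp]
        nlinarith [mul_le_mul_of_nonneg_right e5 hp0, sq_nonneg l]
  have h3 : (fun G : SimpleGraph V => Real.exp (l * (ex G U S - #Uᶜ * (1 / 2) ^ #U))) =
      fun G => ∏ v ∈ Uᶜ, Real.exp (l * (I (Pat G U S v) - p)) := by
    ext G
    rw [← Real.exp_sum, ← mul_sum, sum_sub_distrib, ← hp, ex]
    simp [I]
  rw [h3, h1]
  calc _ ≤ ∏ v ∈ Uᶜ, Real.exp (l ^ 2) := by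
        apply prod_le_prod _ h2
        intro v _
        unfold av
        positivity
    _ ≤ _ := by
        rw [prod_const, ← Real.exp_nat_mul, Real.exp_le_exp, mul_comm]
        gcongr
        exact card_le_univ _

lemma tail (U S : Finset V) {δ : ℝ} (h0 : 0 < δ) (h1 : δ ≤ 2) :
    (#{G : SimpleGraph V | δ * Fintype.card V < |(ex G U S : ℝ) - #Uᶜ * (1 / 2) ^ #U|} : ℝ) ≤
      2 * Real.exp (-(δ ^ 2 / 4 * Fintype.card V)) * Fintype.card (SimpleGraph V) := by
  have a1 := av_exp U S (l := δ / 2) (by rw [abs_of_pos (by linarith)]; linarith)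
  have a2 := av_exp U S (l := -(δ / 2)) (by rw [abs_neg, abs_of_pos (by linarith)]; linarith)
  rw [av, div_le_iff₀ card_pos'] at a1 a2
  have a3 : (#{G : SimpleGraph V | δ * Fintype.card V < |(ex G U S : ℝ) - #Uᶜ * (1 / 2) ^ #U|} : ℝ) *
      Real.exp (δ ^ 2 / 2 * Fintype.card V) ≤
      ∑ G : SimpleGraph V, (Real.exp (δ / 2 * (ex G U S - #Uᶜ * (1 / 2) ^ #U)) +
        Real.exp (-(δ / 2) * (ex G U S - #Uᶜ * (1 / 2) ^ #U))) := by
    rw [← nsmul_eq_mul, ← sum_const]
    refine le_trans (sum_le_sum ?_) (sum_le_sum_of_subset_of_nonneg (filter_subset _ _)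
      (by intros; positivity))
    intro G hG
    rcases lt_abs.mp (mem_filter.mp hG).2 with h | h
    · refine le_trans ?_ (le_add_of_nonneg_right (Real.exp_pos _).le)
      rw [Real.exp_le_exp]
      nlinarith
    · refine le_trans ?_ (le_add_of_nonneg_left (Real.exp_pos _).le)
      rw [Real.exp_le_exp]
      nlinarith
  rw [sum_add_distrib] at a3
  apply le_of_mul_le_mul_right _ (Real.exp_pos (δ ^ 2 / 2 * Fintype.card V))
  have e : Real.exp (-(δ ^ 2 / 4 * Fintype.card V)) * Real.exp (δ ^ 2 / 2 * Fintype.card V) =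
      Real.exp ((δ / 2) ^ 2 * Fintype.card V) := by
    rw [← Real.exp_add]; congr 1; ring
  rw [neg_sq] at a2
  calc _ ≤ 2 * (Real.exp ((δ / 2) ^ 2 * Fintype.card V) * Fintype.card (SimpleGraph V)) := by
        linarith
    _ = _ := by rw [← e]; ring

def Good (δ : ℝ) (G : SimpleGraph V) : Prop :=
  ∀ U S : Finset V, #U ≤ 4 → #S ≤ 4 →
    |(ex G U S : ℝ) - #Uᶜ * (1 / 2) ^ #U| ≤ δ * Fintype.card V

lemma card_small : #{U : Finset V | #U ≤ 4} ≤ 5 * (Fintype.card V + 1) ^ 4 := by
  calc _ ≤ #((range 5).biUnion fun i => powersetCard i (univ : Finset V)) := by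
        apply card_le_card
        intro U hU
        simp only [mem_filter, mem_univ, true_and] at hU
        simp only [mem_biUnion, mem_range, mem_powersetCard]
        exact ⟨#U, by omega, subset_univ _, rfl⟩
    _ ≤ ∑ i ∈ range 5, (Fintype.card V + 1) ^ 4 := by
        refine card_biUnion_le.trans (sum_le_sum ?_)
        intro i hi
        rw [card_powersetCard, card_univ]
        calc _ ≤ Fintype.card V ^ i := Nat.choose_le_pow _ _
          _ ≤ (Fintype.card V + 1) ^ i := by gcongr; omega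
          _ ≤ _ := Nat.pow_le_pow_right (by omega) (by rw [mem_range] at hi; omega)
    _ = _ := by simp

lemma bad_le {δ : ℝ} (h0 : 0 < δ) (h1 : δ ≤ 2) :
    (#{G : SimpleGraph V | ¬ Good δ G} : ℝ) ≤ 50 * (Fintype.card V + 1) ^ 8 *
      Real.exp (-(δ ^ 2 / 4 * Fintype.card V)) * Fintype.card (SimpleGraph V) := by
  have hs : ({G : SimpleGraph V | ¬ Good δ G} : Finset _) ⊆
      (({U : Finset V | #U ≤ 4} : Finset _) ×ˢ ({U : Finset V | #U ≤ 4} : Finset _)).biUnion
        fun p => {G : SimpleGraph V |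
          δ * Fintype.card V < |(ex G p.1 p.2 : ℝ) - #p.1ᶜ * (1 / 2) ^ #p.1|} := by
    intro G hG
    simp only [Good, mem_filter, mem_univ, true_and, not_forall, not_le] at hG
    obtain ⟨U, S, a, b, c⟩ := hG
    simp only [mem_biUnion, mem_product, mem_filter, mem_univ, true_and]
    exact ⟨(U, S), ⟨a, b⟩, c⟩
  have h2 := (card_le_card hs).trans card_biUnion_le
  have h3 : (#{U : Finset V | #U ≤ 4} : ℝ) ≤ 5 * (Fintype.card V + 1) ^ 4 := by
    exact_mod_cast card_small
  calc _ ≤ ∑ p ∈ (({U : Finset V | #U ≤ 4} : Finset _) ×ˢ ({U : Finset V | #U ≤ 4} : Finset _)),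
        2 * Real.exp (-(δ ^ 2 / 4 * Fintype.card V)) * Fintype.card (SimpleGraph V) := by
        refine le_trans (by exact_mod_cast h2) (sum_le_sum (f := fun p : Finset V × Finset V =>
          (#{G : SimpleGraph V |
            δ * Fintype.card V < |(ex G p.1 p.2 : ℝ) - #p.1ᶜ * (1 / 2) ^ #p.1|} : ℝ)) ?_)
        intro p _
        exact tail p.1 p.2 h0 h1
    _ ≤ (5 * (Fintype.card V + 1) ^ 4) * (5 * (Fintype.card V + 1) ^ 4) *
        (2 * Real.exp (-(δ ^ 2 / 4 * Fintype.card V)) * Fintype.card (SimpleGraph V)) := by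
        rw [sum_const, card_product, nsmul_eq_mul, Nat.cast_mul]
        gcongr
    _ = _ := by ring

lemma card_graphs : Fintype.card (SimpleGraph V) = 2 ^ (Fintype.card V).choose 2 := by
  rw [← SimpleGraph.card_edgeFinset_top_eq_card_choose_two, ← card_powerset, ← card_univ]
  apply card_bij (fun G _ => G.edgeFinset)
  · intro G _
    rw [mem_powerset]
    intro e he
    rw [SimpleGraph.mem_edgeFinset] at he ⊢
    exact SimpleGraph.edgeSet_mono le_top he
  · intro G _ G' _ h
    simpa using h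
  · intro s hs
    refine ⟨SimpleGraph.fromEdgeSet s, mem_univ _, ?_⟩
    ext e
    have := @mem_powerset.mp hs e
    simp only [SimpleGraph.mem_edgeFinset, SimpleGraph.edgeSet_top, Set.mem_compl_iff] at this
    simp only [SimpleGraph.mem_edgeFinset, SimpleGraph.edgeSet_fromEdgeSet, Set.mem_sdiff,
      mem_coe]
    tauto

theorem almost {δ : ℝ} (h0 : 0 < δ) (h1 : δ ≤ 2) (P : ∀ n, SimpleGraph (Fin n) → Prop) (N : ℕ)
    (hP : ∀ n, N ≤ n → ∀ G, Good δ G → P n G) :
    Tendsto (fun n : ℕ => (Nat.card {G : SimpleGraph (Fin n) // P n G} : ℝ) / (2 : ℝ) ^ (n.choose 2))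
      atTop (𝓝 1) := by
  have lim : Tendsto (fun n : ℕ => 50 * ((n : ℝ) + 1) ^ 8 * Real.exp (-(δ ^ 2 / 4 * n))) atTop
      (𝓝 0) := by
    have c0 : 0 < δ ^ 2 / 4 := by positivity
    have t1 : Tendsto (fun n : ℕ => δ ^ 2 / 4 * ((n : ℝ) + 1)) atTop atTop :=
      (tendsto_atTop_add_const_right _ _ tendsto_natCast_atTop_atTop).const_mul_atTop c0
    have t2 := ((Real.tendsto_pow_mul_exp_neg_atTop_nhds_zero 8).comp t1).const_mul
      (50 * Real.exp (δ ^ 2 / 4) / (δ ^ 2 / 4) ^ 8)
    rw [mul_zero] at t2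
    refine t2.congr fun n => ?_
    have e : Real.exp (-(δ ^ 2 / 4 * n)) =
        Real.exp (δ ^ 2 / 4) * Real.exp (-(δ ^ 2 / 4 * ((n : ℝ) + 1))) := by
      rw [← Real.exp_add]; congr 1; ring
    simp only [Function.comp]
    rw [e]
    field_simp
  have lim2 := (tendsto_const_nhds (x := (1 : ℝ))).sub lim
  rw [sub_zero] at lim2
  have hc : ∀ n : ℕ, (Fintype.card (SimpleGraph (Fin n)) : ℝ) = 2 ^ n.choose 2 := by
    intro n
    rw [card_graphs]; simp
  apply tendsto_of_tendsto_of_tendsto_of_le_of_le' lim2 tendsto_const_nhds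
  · filter_upwards [eventually_ge_atTop N] with n hn
    rw [le_div_iff₀ (by positivity), ← hc]
    have b := bad_le (V := Fin n) h0 h1
    rw [Fintype.card_fin] at b
    have c : #{G : SimpleGraph (Fin n) | Good δ G} ≤ Nat.card {G : SimpleGraph (Fin n) // P n G} := by
      rw [Nat.card_eq_fintype_card, Fintype.card_subtype]
      apply card_le_card
      intro G hG
      simp only [mem_filter, mem_univ, true_and] at hG ⊢
      exact hP n hn G hG
    have d := card_filter_add_card_filter_not (s := (univ : Finset (SimpleGraph (Fin n))))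
      (fun G => Good δ G)
    rw [card_univ] at d
    have c' : (#{G : SimpleGraph (Fin n) | Good δ G} : ℝ) ≤
      Nat.card {G : SimpleGraph (Fin n) // P n G} := by exact_mod_cast c
    have d' : (#{G : SimpleGraph (Fin n) | Good δ G} : ℝ) + #{G : SimpleGraph (Fin n) | ¬ Good δ G} =
      Fintype.card (SimpleGraph (Fin n)) := by exact_mod_cast d
    linarith
  · filter_upwards with n
    rw [div_le_one (by positivity), ← hc, Nat.card_eq_fintype_card]
    exact_mod_cast Fintype.card_subtype_le _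

end Pool.Agent.H.MP_3e5c62_pr
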